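import Pool.Agent.Helper30K9.CP.Tree

set_option autoImplicit false

/-! # Leaf [CANISO]: every canopy tree is isomorphic to the model -/

namespace Pool.Agent.Helper98K9.CP

namespace CanisoL

open SimpleGraph

theorem index_exists {V : Type} (q : V → V) (o : ℕ → V) (b : ℕ) (hb : 1 ≤ b) (l : V → ℕ)
    (hlo : ∀ k, l (o k) = k) (hqo : ∀ k, q (o k) = o (k + 1))
    (hc : ∀ y, 1 ≤ l y → {x | q x = y}.ncard = b) (y : V) (hy : 1 ≤ l y) :
    ∃ c : V → ℕ, Set.BijOn c {x | q x = y} (Set.Iio b) ∧ ∀ k, o (k + 1) = y → c (o k) = 0 := by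
  classical
  have h1 : {x | q x = y}.Finite := Set.finite_of_ncard_pos (by rw [hc y hy]; omega)
  have h2 : {x | q x = y}.encard = (Set.Iio b).encard := by
    rw [← Set.Finite.cast_ncard_eq h1, hc y hy, ← Set.Finite.cast_ncard_eq (Set.finite_Iio b)]
    congr 1
    rw [← Nat.card_coe_set_eq, Nat.card_eq_card_toFinset, Set.toFinset_Iio, Nat.card_Iio]
  obtain ⟨c0, hc0⟩ := h1.exists_bijOn_of_encard_eq h2
  by_cases hk : ∃ k, o (k + 1) = y
  · obtain ⟨k, hk⟩ := hk
    have hmem : o k ∈ {x | q x = y} := by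
      show q (o k) = y
      rw [hqo, hk]
    refine ⟨fun x => Equiv.swap (c0 (o k)) 0 (c0 x), ?_, ?_⟩
    · exact (Equiv.bijOn_swap (hc0.mapsTo hmem) (show (0 : ℕ) ∈ Set.Iio b from hb)).comp hc0
    · intro k' hk'
      have h3 : k' = k := by
        have := hlo (k' + 1)
        rw [hk', ← hk, hlo] at this
        omega
      subst h3
      show Equiv.swap (c0 (o k')) 0 (c0 (o k')) = 0
      rw [Equiv.swap_apply_left]
  · exact ⟨c0, hc0, fun k' hk' => absurd ⟨k', hk'⟩ hk⟩

end CanisoL

open CanisoL TreeModel SimpleGraph in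
theorem caniso : S_CANISO := by
  classical
  intro d hd V C l hC
  obtain ⟨b, rfl⟩ : ∃ b, d = b + 1 := ⟨d - 1, by omega⟩
  have hb : 2 ≤ b := by omega
  -- the parent
  choose q hq hqu using hC.parent
  have hq' : ∀ x, C.Adj x (q x) ∧ l (q x) = l x + 1 := fun x => hq x
  have hlq : ∀ x, l (q x) = l x + 1 := fun x => (hq' x).2
  have hadj : ∀ x y, C.Adj x y ↔ q x = y ∨ q y = x := by
    intro x y
    constructor
    · intro h
      rcases hC.adj x y h with h1 | h1
      · right
        exact (hqu y x ⟨h.symm, h1⟩).symm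
      · left
        exact (hqu x y ⟨h, h1⟩).symm
    · rintro (rfl | rfl)
      · exact (hq' x).1
      · exact (hq' y).1.symm
  have hch : ∀ y, 1 ≤ l y → {x | q x = y}.ncard = b := by
    intro y hy
    have h1 := hC.children y hy
    rw [Nat.add_sub_cancel] at h1
    rw [← h1]
    congr 1
    ext x
    show q x = y ↔ C.Adj y x ∧ l x + 1 = l y
    constructor
    · rintro rfl
      exact ⟨(hq' x).1.symm, (hlq x).symm⟩
    · rintro ⟨h2, h3⟩
      exact (hqu x y ⟨h2.symm, h3.symm⟩).symm
  -- a vertex of level 0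
  obtain ⟨o0, ho0⟩ : ∃ o : V, l o = 0 := by
    obtain ⟨x⟩ := hC.conn.nonempty
    have : ∀ n, ∀ x, l x = n → ∃ o : V, l o = 0 := by
      intro n
      induction n with
      | zero => intro x hx; exact ⟨x, hx⟩
      | succ n ih =>
        intro x hx
        have h1 := hch x (by omega)
        have h2 : {z | q z = x}.Nonempty := by
          rw [Set.nonempty_iff_ne_empty]
          intro h
          rw [h, Set.ncard_empty] at h1
          omega
        obtain ⟨z, hz⟩ := h2
        have hz' : q z = x := hz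
        have h3 := hlq z
        rw [hz', hx] at h3
        exact ih z (by omega)
    exact this _ x rfl
  obtain ⟨o, ho⟩ : ∃ o : ℕ → V, ∀ k, o k = q^[k] o0 := ⟨_, fun k => rfl⟩
  have hqo : ∀ k, q (o k) = o (k + 1) := by
    intro k
    rw [ho, ho, Function.iterate_succ_apply']
  have hlo : ∀ k, l (o k) = k := by
    intro k
    induction k with
    | zero => rw [ho]; exact ho0
    | succ k ih => rw [← hqo, hlq, ih]
  have hqj : ∀ j k, q^[j] (o k) = o (k + j) := by
    intro j
    induction j with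
    | zero => intro k; rfl
    | succ j ih =>
      intro k
      rw [Function.iterate_succ_apply, hqo, ih]
      congr 1
      omega
  -- digits
  have hdig := index_exists q o b (by omega) l hlo hqo hch
  choose! c hcb hc0 using hdig
  obtain ⟨dg, hdg⟩ : ∃ dg : V → ℕ, ∀ x, dg x = c (q x) x := ⟨_, fun x => rfl⟩
  have hlq1 : ∀ x, 1 ≤ l (q x) := fun x => by rw [hlq]; omega
  have hD1 : ∀ x, dg x < b := fun x => by
    rw [hdg]
    exact (hcb (q x) (hlq1 x)).mapsTo rfl
  have hD2 : ∀ x y, q x = q y → dg x = dg y → x = y := by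
    intro x y h1 h2
    rw [hdg, hdg, ← h1] at h2
    exact (hcb (q x) (hlq1 x)).injOn rfl h1.symm h2
  have hD3 : ∀ y, 1 ≤ l y → ∀ i < b, ∃ x, q x = y ∧ dg x = i := by
    intro y hy i hi
    obtain ⟨x, hx1, hx2⟩ := (hcb y hy).surjOn (show i ∈ Set.Iio b from hi)
    have hx1' : q x = y := hx1
    exact ⟨x, hx1', by rw [hdg, hx1', hx2]⟩
  have hD4 : ∀ k, dg (o k) = 0 := by
    intro k
    rw [hdg, hqo]
    exact hc0 (o (k + 1)) (by rw [hlo]; omega) k rfl
  -- everything meets the line
  have hline : ∀ x, ∃ j, q^[j] x = o (l x + j) := by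
    intro x
    obtain ⟨w⟩ := hC.conn o0 x
    have key : ∀ u v : V, ∀ w : C.Walk u v, (∃ j, q^[j] u = o (l u + j)) →
        ∃ j, q^[j] v = o (l v + j) := by
      intro u v w
      induction w with
      | nil => exact id
      | cons h p ih =>
        rename_i u v w'
        rintro ⟨j, hj⟩
        apply ih
        rcases (hadj u v).1 h with h1 | h1
        · refine ⟨j, ?_⟩
          have h2 := hlq u
          rw [h1] at h2
          rw [← h1, ← Function.iterate_succ_apply, Function.iterate_succ_apply', hj, hqo, h1, h2]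
          congr 1
          omega
        · refine ⟨j + 1, ?_⟩
          have h2 := hlq v
          rw [h1] at h2
          rw [Function.iterate_succ_apply, h1, hj, h2]
          congr 1
          omega
    exact key o0 x w ⟨0, by rw [ho0]; show o0 = o 0; rw [ho]; rfl⟩
  choose J hJ using hline
  have hJ' : ∀ x j, J x ≤ j → q^[j] x = o (l x + j) := by
    intro x j hj
    obtain ⟨t, rfl⟩ := Nat.exists_eq_add_of_le hj
    rw [Nat.add_comm (J x) t, Function.iterate_add_apply, hJ, hqj]
    congr 1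
    omega
  -- the index
  obtain ⟨M, hM⟩ : ∃ M : V → ℕ → ℕ, ∀ x n, M x n = ∑ j ∈ Finset.range n, dg (q^[j] x) * b ^ j :=
    ⟨_, fun x n => rfl⟩
  have hM1 : ∀ x n, J x ≤ n → M x n = M x (J x) := by
    intro x n hn
    obtain ⟨t, rfl⟩ := Nat.exists_eq_add_of_le hn
    rw [hM, hM, Finset.sum_range_add]
    have : ∑ j ∈ Finset.range t, dg (q^[J x + j] x) * b ^ (J x + j) = 0 := by
      refine Finset.sum_eq_zero fun j _ => ?_
      rw [hJ' x (J x + j) (by omega), hD4, zero_mul]
    rw [this, add_zero]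
  have hM2 : ∀ x n, M x (n + 1) = dg x + b * M (q x) n := by
    intro x n
    rw [hM, hM, Finset.sum_range_succ', Finset.mul_sum, add_comm]
    simp only [Function.iterate_zero, id, pow_zero, mul_one]
    congr 1
    refine Finset.sum_congr rfl fun j _ => ?_
    rw [Function.iterate_succ_apply, pow_succ]
    ring
  obtain ⟨m, hm⟩ : ∃ m : V → ℕ, ∀ x, m x = M x (J x) := ⟨_, fun x => rfl⟩
  have hm1 : ∀ x, m x = dg x + b * m (q x) := by
    intro x
    have h1 := hM1 x (max (J x) (J (q x)) + 1) (by omega)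
    have h2 := hM1 (q x) (max (J x) (J (q x))) (by omega)
    rw [hm, hm, ← h1, ← h2, hM2]
  have hm2 : ∀ x, m x / b = m (q x) := by
    intro x
    rw [hm1 x, Nat.add_mul_div_left _ _ (by omega), Nat.div_eq_of_lt (hD1 x), zero_add]
  have hm3 : ∀ x, m x % b = dg x := by
    intro x
    rw [hm1 x, Nat.add_mul_mod_self_left, Nat.mod_eq_of_lt (hD1 x)]
  have hm0 : ∀ k, m (o k) = 0 := by
    intro k
    rw [hm, hM]
    refine Finset.sum_eq_zero fun j _ => ?_
    rw [hqj, hD4, zero_mul]
  -- injectivity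
  have hinj' : ∀ j x y, q^[j] x = q^[j] y → m x = m y → x = y := by
    intro j
    induction j with
    | zero => intro x y h _; exact h
    | succ j ih =>
      intro x y h1 h2
      rw [Function.iterate_succ_apply, Function.iterate_succ_apply] at h1
      refine hD2 x y (ih _ _ h1 ?_) ?_
      · rw [← hm2, ← hm2, h2]
      · rw [← hm3, ← hm3, h2]
  obtain ⟨f, hf⟩ : ∃ f : V → ℕ × ℕ, ∀ x, f x = (l x, m x) := ⟨_, fun x => rfl⟩
  have hinj : Function.Injective f := by
    intro x y h
    rw [hf, hf] at h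
    have h1 := (Prod.mk.inj h).1
    have h2 := (Prod.mk.inj h).2
    refine hinj' (max (J x) (J y)) x y ?_ h2
    rw [hJ' x _ (le_max_left _ _), hJ' y _ (le_max_right _ _), h1]
  have hsurj' : ∀ n k, ∃ x, l x = k ∧ m x = n := by
    intro n
    induction n using Nat.strong_induction_on with
    | _ n ih =>
      intro k
      rcases Nat.eq_zero_or_pos n with rfl | hn
      · exact ⟨o k, hlo k, hm0 k⟩
      · obtain ⟨y, hy1, hy2⟩ := ih (n / b) (Nat.div_lt_self hn hb) (k + 1)
        obtain ⟨x, hx1, hx2⟩ := hD3 y (by omega) (n % b) (Nat.mod_lt _ (by omega))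
        refine ⟨x, ?_, ?_⟩
        · have := hlq x
          rw [hx1, hy1] at this
          omega
        · rw [hm1, hx1, hx2, hy2, Nat.mod_add_div]
  have hbij : Function.Bijective f := by
    refine ⟨hinj, ?_⟩
    rintro ⟨k, n⟩
    obtain ⟨x, h1, h2⟩ := hsurj' n k
    exact ⟨x, by rw [hf, h1, h2]⟩
  have hfq : ∀ x, f (q x) = ((f x).1 + 1, (f x).2 / b) := by
    intro x
    rw [hf, hf, hlq, hm2]
  refine ⟨⟨Equiv.ofBijective f hbij, ?_⟩⟩
  intro x y
  show (canopy (b + 1)).Adj (f x) (f y) ↔ C.Adj x y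
  rw [canopy_adj, hadj, Nat.add_sub_cancel, ← hfq, ← hfq]
  constructor
  · rintro (h | h)
    · exact Or.inl (hinj h).symm
    · exact Or.inr (hinj h).symm
  · rintro (h | h)
    · exact Or.inl (by rw [h])
    · exact Or.inr (by rw [h])

end Pool.Agent.Helper98K9.CP
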