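import Pool.Agent.Helper98K9.CP.Perc

set_option autoImplicit false

/-! # Leaf [TISO]: two `d`-regular trees are isomorphic -/

namespace Pool.Agent.Helper98K9.CP

namespace TisoL

open SimpleGraph

/-- rooted structure: `l` is the level, `q x` the parent -/
structure Rt {V : Type} (G : SimpleGraph V) (o : V) (l : V → ℕ) (q : V → V) : Prop where
  root : ∀ x, l x = 0 ↔ x = o
  adj : ∀ x y, G.Adj x y ↔ (x ≠ o ∧ q x = y) ∨ (y ≠ o ∧ q y = x)
  lev : ∀ x, x ≠ o → l x = l (q x) + 1

theorem par_exu {V : Type} {T : SimpleGraph V} (hT : T.IsTree) (o x : V) (hx : x ≠ o) :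
    ∃! y, T.Adj x y ∧ T.dist o y + 1 = T.dist o x := by
  have hc := hT.connected
  obtain ⟨p, hp⟩ := hc.exists_walk_length_eq_dist o x
  have hnil : ¬ p.Nil := fun h => hx h.eq.symm
  have hadj := p.adj_penultimate hnil
  have hle : T.dist o p.penultimate + 1 ≤ T.dist o x := by
    have h1 := T.dist_le p.dropLast
    have h2 : p.dropLast.length + 1 = p.length := by
      have := Walk.length_dropLast_add_one hnil
      exact this
    omega
  refine ⟨p.penultimate, ⟨hadj.symm, ?_⟩, ?_⟩
  · have := hT.dist_eq_dist_add_one_of_adj o hadj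
    omega
  · rintro y ⟨hy1, hy2⟩
    obtain ⟨r, hr⟩ := hc.exists_walk_length_eq_dist o y
    have h3 : (r.concat hy1.symm).length = T.dist o x := by
      rw [Walk.length_concat, hr, hy2]
    have h4 : (r.concat hy1.symm).IsPath := Walk.isPath_of_length_eq_dist _ h3
    have h5 : p.IsPath := Walk.isPath_of_length_eq_dist _ hp
    have h6 : r.concat hy1.symm = p := by
      have := (isAcyclic_iff_subsingleton_path.mp hT.isAcyclic o x).elim ⟨_, h4⟩ ⟨_, h5⟩
      exact congrArg Subtype.val this
    rw [← h6, Walk.penultimate_concat]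

theorem rt_of_tree {V : Type} {T : SimpleGraph V} (hT : T.IsTree) (o : V) :
    ∃ q : V → V, Rt T o (T.dist o) q := by
  classical
  have hc := hT.connected
  choose! q hq hu using fun x hx => par_exu hT o x hx
  refine ⟨q, ⟨fun x => ?_, fun x y => ?_, fun x hx => (hq x hx).2.symm⟩⟩
  · rw [hc.dist_eq_zero_iff]
    exact eq_comm
  · constructor
    · intro h
      rcases hT.dist_eq_dist_add_one_of_adj o h with h1 | h1
      · left
        have hx : x ≠ o := by
          rintro rfl
          simp at h1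
        exact ⟨hx, (hu x hx y ⟨h, h1.symm⟩).symm⟩
      · right
        have hy : y ≠ o := by
          rintro rfl
          simp at h1
        exact ⟨hy, (hu y hy x ⟨h.symm, h1.symm⟩).symm⟩
    · rintro (⟨hx, rfl⟩ | ⟨hy, rfl⟩)
      · exact (hq x hx).1
      · exact (hq y hy).1.symm

/-- the children of `y` -/
def Ch {V : Type} (o : V) (q : V → V) (y : V) : Set V := {x | x ≠ o ∧ q x = y}

variable {V : Type} {G : SimpleGraph V} {o : V} {l : V → ℕ} {q : V → V}

open Classical in
theorem Rt.ch_eq (h : Rt G o l q) (y : V) :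
    G.neighborSet y = if y = o then Ch o q y else insert (q y) (Ch o q y) := by
  ext x
  rw [mem_neighborSet, h.adj]
  split_ifs with hy
  · simp only [Ch, Set.mem_setOf_eq]
    constructor
    · rintro (⟨h1, -⟩ | h1)
      · exact absurd hy h1
      · exact h1
    · exact fun h1 => Or.inr h1
  · simp only [Ch, Set.mem_insert_iff, Set.mem_setOf_eq]
    constructor
    · rintro (⟨-, h1⟩ | h1)
      · exact Or.inl h1.symm
      · exact Or.inr h1
    · rintro (h1 | h1)
      · exact Or.inl ⟨hy, h1.symm⟩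
      · exact Or.inr h1

theorem Rt.q_notMem (h : Rt G o l q) (y : V) (hy : y ≠ o) : q y ∉ Ch o q y := by
  rintro ⟨h1, h2⟩
  have h3 := h.lev y hy
  have h4 := h.lev (q y) h1
  rw [h2] at h4
  omega

open Classical in
theorem Rt.ch_encard (h : Rt G o l q) (d : ℕ) (hd : 1 ≤ d)
    (hr : ∀ x, (G.neighborSet x).ncard = d) (y : V) :
    (Ch o q y).encard = ((if y = o then d else d - 1 : ℕ) : ℕ∞) := by
  have hfin : (G.neighborSet y).Finite := Set.finite_of_ncard_pos (by rw [hr]; omega)
  have h1 := hr y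
  rw [h.ch_eq] at h1 hfin
  split_ifs at h1 hfin ⊢ with hy
  · rw [← h1, Set.Finite.cast_ncard_eq hfin]
  · have h2 : (Ch o q y).Finite := hfin.subset (Set.subset_insert _ _)
    rw [Set.ncard_insert_of_notMem (h.q_notMem y hy) h2] at h1
    rw [← Set.Finite.cast_ncard_eq h2]
    congr 1
    omega

/-- the isomorphism, built from the root -/
noncomputable def iso_fun {V' : Type} (o : V) (l : V → ℕ) (q : V → V) (o' : V')
    (B : V → V' → V → V') : ℕ → V → V'
  | 0, _ => o'
  | n + 1, x => by
    classical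
    exact if x = o then o' else B (q x) (iso_fun o l q o' B n (q x)) x

theorem iso_of {V' : Type} {G' : SimpleGraph V'} {o' : V'} {l' : V' → ℕ} {q' : V' → V'}
    (h : Rt G o l q) (h' : Rt G' o' l' q')
    (hB : ∀ y y', l y = l' y' → ∃ f : V → V', Set.BijOn f (Ch o q y) (Ch o' q' y')) :
    Nonempty (G ≃g G') := by
  classical
  choose! B hB using hB
  -- the map
  obtain ⟨f, hf0, hf1⟩ : ∃ f : V → V', f o = o' ∧ ∀ x, x ≠ o → f x = B (q x) (f (q x)) x := by
    refine ⟨fun x => iso_fun o l q o' B (l x) x, ?_, fun x hx => ?_⟩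
    · show iso_fun o l q o' B (l o) o = o'
      rw [(h.root o).2 rfl]
      rfl
    · show iso_fun o l q o' B (l x) x = B (q x) (iso_fun o l q o' B (l (q x)) (q x)) x
      rw [h.lev x hx]
      show (if x = o then o' else B (q x) (iso_fun o l q o' B (l (q x)) (q x)) x) = _
      rw [if_neg hx]
  have hlev : ∀ n x, l x = n → l' (f x) = n := by
    intro n
    induction n with
    | zero =>
      intro x hx
      rw [(h.root x).1 hx, hf0]
      exact (h'.root o').2 rfl
    | succ n ih =>
      intro x hx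
      have hxo : x ≠ o := fun hh => by rw [(h.root x).2 hh] at hx; omega
      have h1 := h.lev x hxo
      have h2 : l (q x) = n := by omega
      have h3 := ih (q x) h2
      have h4 : f x ∈ Ch o' q' (f (q x)) := by
        rw [hf1 x hxo]
        exact (hB (q x) (f (q x)) (by rw [h3, h2])).mapsTo ⟨hxo, rfl⟩
      rw [h'.lev _ h4.1, h4.2, h3]
  have hl : ∀ x, l' (f x) = l x := fun x => hlev (l x) x rfl
  have hfo : ∀ x, f x = o' ↔ x = o := by
    intro x
    rw [← h'.root, ← h.root, hl]
  have hfq : ∀ x, x ≠ o → q' (f x) = f (q x) := by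
    intro x hx
    have : f x ∈ Ch o' q' (f (q x)) := by
      rw [hf1 x hx]
      exact (hB (q x) (f (q x)) (hl _).symm).mapsTo ⟨hx, rfl⟩
    exact this.2
  have hinj' : ∀ n x y, l x = n → f x = f y → x = y := by
    intro n
    induction n with
    | zero =>
      intro x y hx hxy
      have h1 := (h.root x).1 hx
      rw [h1, hf0] at hxy
      rw [h1, (hfo y).1 hxy.symm]
    | succ n ih =>
      intro x y hx hxy
      have hxo : x ≠ o := fun hh => by rw [(h.root x).2 hh] at hx; omega
      have hyo : y ≠ o := fun hh => hxo ((hfo x).1 (hxy.trans ((hfo y).2 hh)))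
      have h1 := h.lev x hxo
      have h2 : q x = q y := by
        refine ih (q x) (q y) (by omega) ?_
        rw [← hfq x hxo, ← hfq y hyo, hxy]
      have h3 := (hB (q x) (f (q x)) (hl _).symm).injOn
      refine h3 ⟨hxo, rfl⟩ ⟨hyo, h2.symm⟩ ?_
      have h4 := hf1 x hxo
      have h5 := hf1 y hyo
      rw [← h2] at h5
      rw [← h4, ← h5, hxy]
  have hinj : Function.Injective f := fun x y => hinj' _ x y rfl
  have hsurj' : ∀ n x', l' x' = n → ∃ x, f x = x' := by
    intro n
    induction n with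
    | zero =>
      intro x' hx
      exact ⟨o, by rw [hf0, (h'.root x').1 hx]⟩
    | succ n ih =>
      intro x' hx
      have hxo : x' ≠ o' := fun hh => by rw [(h'.root x').2 hh] at hx; omega
      have h1 := h'.lev x' hxo
      obtain ⟨y, hy⟩ := ih (q' x') (by omega)
      obtain ⟨x, hx1, hx2⟩ := (hB y (f y) (hl _).symm).surjOn
        (show x' ∈ Ch o' q' (f y) from ⟨hxo, hy.symm⟩)
      refine ⟨x, ?_⟩
      rw [hf1 x hx1.1, hx1.2, hx2]
  have hbij : Function.Bijective f := ⟨hinj, fun x' => hsurj' _ x' rfl⟩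
  refine ⟨⟨Equiv.ofBijective f hbij, ?_⟩⟩
  intro x y
  show G'.Adj (f x) (f y) ↔ G.Adj x y
  rw [h'.adj, h.adj]
  have hne : ∀ x, f x ≠ o' ↔ x ≠ o := fun x => not_congr (hfo x)
  rw [hne, hne]
  constructor
  · rintro (⟨h1, h2⟩ | ⟨h1, h2⟩)
    · rw [hfq x h1] at h2
      exact Or.inl ⟨h1, hinj h2⟩
    · rw [hfq y h1] at h2
      exact Or.inr ⟨h1, hinj h2⟩
  · rintro (⟨h1, h2⟩ | ⟨h1, h2⟩)
    · exact Or.inl ⟨h1, by rw [hfq x h1, h2]⟩
    · exact Or.inr ⟨h1, by rw [hfq y h1, h2]⟩

end TisoL

open TisoL in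
theorem tiso : S_TISO := by
  classical
  intro V V' T T' d hd hT hT' hr hr'
  obtain ⟨o⟩ := hT.connected.nonempty
  obtain ⟨o'⟩ := hT'.connected.nonempty
  obtain ⟨q, hq⟩ := rt_of_tree hT o
  obtain ⟨q', hq'⟩ := rt_of_tree hT' o'
  refine iso_of hq hq' ?_
  intro y y' hyy
  have h1 := hq.ch_encard d hd hr y
  have h2 := hq'.ch_encard d hd hr' y'
  have h3 : y = o ↔ y' = o' := by
    rw [← hq.root, ← hq'.root, hyy]
  have h4 : (Ch o q y).encard = (Ch o' q' y').encard := by
    rw [h1, h2]
    by_cases hy : y = o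
    · rw [if_pos hy, if_pos (h3.1 hy)]
    · rw [if_neg hy, if_neg (fun hh => hy (h3.2 hh))]
  have h5 : (Ch o q y).Finite := by
    rw [← Set.encard_lt_top_iff, h1]
    exact ENat.natCast_lt_top _
  have : Nonempty V' := ⟨o'⟩
  exact h5.exists_bijOn_of_encard_eq h4

end Pool.Agent.Helper98K9.CP
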