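import Pool.Agent.Helper98K9.CP.Perc

set_option autoImplicit false

/-! # Leaves [TREE]: the model is a regular tree, [CANISO]: canopy trees are isomorphic -/

namespace Pool.Agent.Helper98K9.CP

namespace TreeModel

open SimpleGraph

theorem acyclic_of {V : Type} {G : SimpleGraph V} (l : V → ℤ) (q : V → V)
    (h : ∀ x y, G.Adj x y → (q x = y ∧ l y = l x + 1) ∨ (q y = x ∧ l x = l y + 1)) :
    G.IsAcyclic := by
  classical
  intro u c hc
  obtain ⟨w, hw, hmin⟩ : ∃ w ∈ c.support, ∀ v ∈ c.support, l w ≤ l v := by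
    obtain ⟨w, hw1, hw2⟩ := c.support.toFinset.exists_min_image l
      ⟨u, by rw [List.mem_toFinset]; exact c.start_mem_support⟩
    exact ⟨w, List.mem_toFinset.1 hw1, fun v hv => hw2 v (List.mem_toFinset.2 hv)⟩
  have hc' : (c.rotate w hw).IsCycle := hc.rotate hw
  have hnil : ¬ (c.rotate w hw).Nil := hc'.not_nil
  have h1 := (c.rotate w hw).adj_snd hnil
  have h2 := (c.rotate w hw).adj_penultimate hnil
  have h3 : (c.rotate w hw).snd ∈ c.support :=
    (Walk.mem_support_rotate_iff c w hw).1 (Walk.getVert_mem_support _ _)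
  have h4 : (c.rotate w hw).penultimate ∈ c.support :=
    (Walk.mem_support_rotate_iff c w hw).1 (Walk.getVert_mem_support _ _)
  have h5 := hmin _ h3
  have h6 := hmin _ h4
  refine hc'.snd_ne_penultimate ?_
  rcases h _ _ h1 with ⟨a, b⟩ | ⟨a, b⟩
  · rcases h _ _ h2 with ⟨a', b'⟩ | ⟨a', b'⟩
    · omega
    · rw [← a, ← a']
  · omega

theorem tree_adj (d : ℕ) (x y : ℤ × ℕ) :
    (tree d).Adj x y ↔ y = (x.1 + 1, x.2 / (d - 1)) ∨ x = (y.1 + 1, y.2 / (d - 1)) := by
  unfold tree
  rw [fromRel_adj]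
  constructor
  · rintro ⟨-, h⟩
    exact h
  · intro h
    refine ⟨?_, h⟩
    rintro rfl
    rcases h with h | h
    · have := congrArg Prod.fst h
      simp at this
    · have := congrArg Prod.fst h
      simp at this

theorem canopy_adj (d : ℕ) (x y : ℕ × ℕ) :
    (canopy d).Adj x y ↔ y = (x.1 + 1, x.2 / (d - 1)) ∨ x = (y.1 + 1, y.2 / (d - 1)) := by
  unfold canopy
  rw [fromRel_adj]
  constructor
  · rintro ⟨-, h⟩
    exact h
  · intro h
    refine ⟨?_, h⟩
    rintro rfl
    rcases h with h | h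
    · have := congrArg Prod.fst h
      simp at this
    · have := congrArg Prod.fst h
      simp at this

theorem div_pow_reach (d : ℕ) (x : ℤ × ℕ) (j : ℕ) :
    (tree d).Reachable x (x.1 + j, x.2 / (d - 1) ^ j) := by
  induction j with
  | zero => simp
  | succ j ih =>
    refine ih.trans (Adj.reachable ?_)
    rw [tree_adj]
    left
    refine Prod.ext ?_ ?_
    · push_cast
      ring
    · show x.2 / (d - 1) ^ (j + 1) = x.2 / (d - 1) ^ j / (d - 1)
      rw [pow_succ, Nat.div_div_eq_div_mul]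

theorem reach_top (d : ℕ) (hd : 3 ≤ d) (x : ℤ × ℕ) :
    ∃ K : ℤ, ∀ k, K ≤ k → (tree d).Reachable x (k, 0) := by
  refine ⟨x.1 + x.2, fun k hk => ?_⟩
  obtain ⟨j, hj⟩ := Int.eq_ofNat_of_zero_le (show 0 ≤ k - x.1 by omega)
  have h1 := div_pow_reach d x j
  have h2 : x.2 / (d - 1) ^ j = 0 := by
    refine Nat.div_eq_of_lt ?_
    have h3 : x.2 ≤ j := by omega
    calc x.2 ≤ j := h3
      _ < (d - 1) ^ j := Nat.lt_pow_self (by omega)
  rw [h2] at h1
  have h4 : x.1 + (j : ℤ) = k := by omega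
  rwa [h4] at h1

end TreeModel

open TreeModel SimpleGraph in
theorem tree_leaf : S_TREE := by
  classical
  intro d hd
  refine ⟨⟨?_, ?_⟩, ?_⟩
  · rw [connected_iff]
    refine ⟨fun x y => ?_, ⟨(0, 0)⟩⟩
    obtain ⟨K, hK⟩ := reach_top d hd x
    obtain ⟨K', hK'⟩ := reach_top d hd y
    exact (hK (max K K') (le_max_left _ _)).trans (hK' (max K K') (le_max_right _ _)).symm
  · refine acyclic_of (fun x => x.1) (fun x => (x.1 + 1, x.2 / (d - 1))) ?_
    intro x y h
    rw [tree_adj] at h
    rcases h with h | h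
    · left
      exact ⟨h.symm, by rw [h]⟩
    · right
      exact ⟨h.symm, by rw [h]⟩
  · rintro ⟨k, m⟩
    have h1 : (tree d).neighborSet (k, m) = insert (k + 1, m / (d - 1))
        ((fun m' => ((k - 1, m') : ℤ × ℕ)) '' (Set.Ico (m * (d - 1)) (m * (d - 1) + (d - 1)))) := by
      ext ⟨k', m'⟩
      rw [mem_neighborSet, tree_adj, Set.mem_insert_iff]
      refine or_congr Iff.rfl ?_
      simp only [Set.mem_image, Prod.mk.injEq, Set.mem_Ico]
      constructor
      · rintro ⟨h2, h3⟩
        refine ⟨m', ?_, by omega, rfl⟩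
        have h4 := Nat.div_add_mod m' (d - 1)
        have h5 := Nat.mod_lt m' (show d - 1 > 0 by omega)
        rw [← h3] at h4
        rw [mul_comm] at h4
        constructor
        · omega
        · omega
      · rintro ⟨n, ⟨h2, h3⟩, h4, rfl⟩
        refine ⟨by omega, ?_⟩
        symm
        rw [Nat.div_eq_iff (by omega)]
        constructor
        · omega
        · omega
    have hinj : Function.Injective (fun m' : ℕ => ((k - 1, m') : ℤ × ℕ)) := by
      intro a b hab
      exact (Prod.mk.inj hab).2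
    have h2 : ((k + 1, m / (d - 1)) : ℤ × ℕ) ∉ ((fun m' => ((k - 1, m') : ℤ × ℕ)) ''
        (Set.Ico (m * (d - 1)) (m * (d - 1) + (d - 1)))) := by
      rintro ⟨n, -, hn⟩
      have := (Prod.mk.inj hn).1
      omega
    rw [h1, Set.ncard_insert_of_notMem h2 ((Set.finite_Ico _ _).image _),
      Set.ncard_image_of_injective _ hinj]
    rw [← Nat.card_coe_set_eq, Nat.card_eq_card_toFinset, Set.toFinset_Ico, Nat.card_Ico]
    omega

end Pool.Agent.Helper98K9.CP
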